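import Pool.Agent.U722.FF.Stm

set_option autoImplicit false

/-!
Project FF, package CONE: cokernels of modules with finite free resolutions.
-/

namespace Pool.Agent.U603.FFP

open TH57.FF U722.FF

theorem FR_mono (R : Type) [Ring R] : ∀ (n : ℕ) (M : Type) [AddCommGroup M] [Module R M],
    FR R n M → FR R (n + 1) M
  | 0, M, _, _, h => by
    obtain ⟨h1, h2⟩ := h
    have e := (Module.Free.chooseBasis R M).equivFun
    refine ⟨Module.Free.ChooseBasisIndex R M, inferInstance, e.symm.toLinearMap,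
      e.symm.surjective, ?_⟩
    have h3 : Subsingleton (LinearMap.ker e.symm.toLinearMap) := by
      rw [LinearEquiv.ker]
      infer_instance
    exact ⟨inferInstance, inferInstance⟩
  | n + 1, M, _, _, h => by
    obtain ⟨ι, i1, f, hf, hk⟩ := h
    exact ⟨ι, i1, f, hf, FR_mono R n _ hk⟩

theorem t_CONE (hE : S_EXT) : S_CONE := by
  intro R _ A B C _ _ _ _ _ _ f g hf hg hfg hA hB
  obtain ⟨m, hB⟩ := hB
  obtain ⟨ι, i1, b, hb, hK⟩ := FR_mono R m B hB
  have hle : LinearMap.ker b ≤ LinearMap.ker (g ∘ₗ b) := by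
    intro x hx
    rw [LinearMap.mem_ker] at hx ⊢
    rw [LinearMap.comp_apply, hx, map_zero]
  have hcod : ∀ x : LinearMap.ker (g ∘ₗ b), (b ∘ₗ (LinearMap.ker (g ∘ₗ b)).subtype) x ∈
      LinearMap.range f := by
    intro x
    rw [← hfg]
    exact LinearMap.mem_ker.1 x.2
  let p : LinearMap.ker (g ∘ₗ b) →ₗ[R] A :=
    (LinearEquiv.ofInjective f hf).symm.toLinearMap ∘ₗ
      LinearMap.codRestrict (LinearMap.range f) (b ∘ₗ (LinearMap.ker (g ∘ₗ b)).subtype) hcod
  have hp : ∀ x : LinearMap.ker (g ∘ₗ b), f (p x) = b x.1 := by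
    intro x
    have h1 := LinearEquiv.ofInjective_apply (f := f) (h := hf) (p x)
    rw [← h1]
    change ((LinearEquiv.ofInjective f hf) ((LinearEquiv.ofInjective f hf).symm
      (LinearMap.codRestrict (LinearMap.range f) (b ∘ₗ (LinearMap.ker (g ∘ₗ b)).subtype) hcod x)) :
      B) = _
    rw [LinearEquiv.apply_symm_apply]
    rfl
  have hps : Function.Surjective p := by
    intro a
    obtain ⟨x, hx⟩ := hb (f a)
    have hx' : x ∈ LinearMap.ker (g ∘ₗ b) := by
      rw [LinearMap.mem_ker, LinearMap.comp_apply, hx, hfg]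
      exact ⟨a, rfl⟩
    refine ⟨⟨x, hx'⟩, hf ?_⟩
    rw [hp, hx]
  obtain ⟨n, hn⟩ := hE R (LinearMap.ker b) (LinearMap.ker (g ∘ₗ b)) A (Submodule.inclusion hle) p
    (Submodule.inclusion_injective hle) hps (by
      intro x
      constructor
      · intro h
        have h1 := hp x
        rw [h, map_zero] at h1
        exact ⟨⟨x.1, LinearMap.mem_ker.2 h1.symm⟩, rfl⟩
      · rintro ⟨y, rfl⟩
        apply hf
        rw [hp, map_zero]
        exact LinearMap.mem_ker.1 y.2) ⟨m, hK⟩ hA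
  exact ⟨n + 1, ι, i1, g ∘ₗ b, hg.comp hb, hn⟩

end Pool.Agent.U603.FFP
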